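import Pool.Agent.Lib.MP_1eeaa7_nt.PS.Trans

/-!
# Counting zeros from a bound for the number of positions of every independent pattern
-/

set_option autoImplicit false

namespace Pool.Agent.Lib.MP_1eeaa7_nt.PS

open Finset Submodule

variable {F V : Type*} [Field F] [AddCommGroup V] [Module F V] {w : ℕ → V}

theorem G_le {D : ℕ} (hD : 1 ≤ D) (k : ℕ) :
    (G D k : ℝ) ≤ 4 * k * (D : ℝ) ^ (1 - (k : ℝ)⁻¹) := by
  have hD' : (1 : ℝ) ≤ D := by exact_mod_cast hD
  induction k with
  | zero => simp [G]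
  | succ k ih =>
    have he : (1 : ℝ) - ((k + 1 : ℕ) : ℝ)⁻¹ = (k : ℝ) / (k + 1) := by
      push_cast
      field_simp
      ring
    rw [he]
    have he0 : 0 ≤ (k : ℝ) / (k + 1) := by positivity
    have he1 : (k : ℝ) / (k + 1) ≤ 1 := by
      rw [div_le_one (by positivity)]; linarith
    have h1 : 1 ≤ (D : ℝ) ^ ((k : ℝ) / (k + 1)) := Real.one_le_rpow hD' he0
    have h2 : (k : ℝ) * (D : ℝ) ^ (1 - (k : ℝ)⁻¹) ≤ k * (D : ℝ) ^ ((k : ℝ) / (k + 1)) := by
      rcases Nat.eq_zero_or_pos k with rfl | hk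
      · simp
      · have hk' : (0 : ℝ) < k := by exact_mod_cast hk
        refine mul_le_mul_of_nonneg_left (Real.rpow_le_rpow_of_exponent_le hD' ?_) hk'.le
        rw [le_div_iff₀ (by positivity)]
        have : (1 - (k : ℝ)⁻¹) * (k + 1) = k - (k : ℝ)⁻¹ := by field_simp; ring
        rw [this]
        have := inv_pos.2 hk'
        linarith
    have h3 : (⌈((2 * D : ℕ) : ℝ) ^ ((k : ℝ) / (k + 1))⌉₊ : ℝ) ≤
        3 * (D : ℝ) ^ ((k : ℝ) / (k + 1)) := by
      have h4 := (Nat.ceil_lt_add_one (a := ((2 * D : ℕ) : ℝ) ^ ((k : ℝ) / (k + 1)))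
        (Real.rpow_nonneg (Nat.cast_nonneg _) _)).le
      have h5 : ((2 * D : ℕ) : ℝ) ^ ((k : ℝ) / (k + 1)) ≤ 2 * (D : ℝ) ^ ((k : ℝ) / (k + 1)) := by
        push_cast
        rw [Real.mul_rpow (by norm_num) (by positivity)]
        refine mul_le_mul_of_nonneg_right ?_ (by positivity)
        calc (2 : ℝ) ^ ((k : ℝ) / (k + 1)) ≤ 2 ^ (1 : ℝ) :=
              Real.rpow_le_rpow_of_exponent_le (by norm_num) he1
          _ = 2 := Real.rpow_one 2
      linarith
    rw [G]
    push_cast at h3 ⊢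
    nlinarith

theorem indep_window [FiniteDimensional F V] (hTI : TI F w) (hfull : Full F w) {m : ℕ}
    (hm : Module.finrank F (span F (Set.range w)) = m) {D : ℕ} {E : Finset ℕ}
    (hE : E ⊆ range D) : (E.card - G D (m - 1)) ^ m ≤ (indep F w E m).card := by
  refine card_indep_ge m fun i hi f hf E' hE' hmem => ?_
  rw [mem_indep] at hf
  refine (card_le_G hTI hfull D i f hf.2 ?_ E' (hE'.trans hE) hmem).trans (G_mono D (by omega))
  by_contra hcon
  push Not at hcon
  have h1 : span F (Set.range w) ≤ span F (Set.range fun i => w (f i)) := by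
    refine span_le.2 ?_
    rintro _ ⟨j, rfl⟩
    exact hcon j
  have h2 := Submodule.finrank_mono h1
  rw [hm, finrank_span_eq_card hf.2, Fintype.card_fin] at h2
  omega

theorem sum_indep_le [FiniteDimensional F V] {m : ℕ} {Z : Set ℕ} {T₀ C : ℕ}
    (hroot : ∀ (D : ℕ) (f : Fin m → ℕ), LinearIndependent F (fun i => w (f i)) →
      (∀ i, f i < D) → ∀ s : Finset ℕ, (∀ T ∈ s, T₀ ≤ T ∧ ∀ i, T + f i ∈ Z) → s.card ≤ C * D)
    {D M N : ℕ} (hM : T₀ ≤ M) {E : ℕ → Finset ℕ} (hE : ∀ T, ∀ j, j ∈ E T ↔ j < D ∧ T + j ∈ Z) :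
    ∑ T ∈ Ico M (M + N), (indep F w (E T) m).card ≤ D ^ m * (C * D) := by
  classical
  set P : Finset (Fin m → ℕ) := Fintype.piFinset fun _ => range D with hP
  have h1 : ∀ T, (indep F w (E T) m).card =
      ∑ f ∈ P, if f ∈ indep F w (E T) m then 1 else 0 := by
    intro T
    rw [← sum_filter, ← card_eq_sum_ones]
    congr 1
    ext f
    rw [mem_filter]
    constructor
    · intro hf
      refine ⟨?_, hf⟩
      rw [hP, Fintype.mem_piFinset]
      intro i
      exact mem_range.2 ((hE T _).1 ((mem_indep.1 hf).1 i)).1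
    · exact fun hf => hf.2
  simp_rw [h1]
  rw [sum_comm]
  have h2 : P.card = D ^ m := by
    rw [hP, Fintype.card_piFinset, prod_const, card_univ, Fintype.card_fin, card_range]
  rw [← h2, ← smul_eq_mul]
  refine sum_le_card_nsmul _ _ _ fun f hf => ?_
  rw [← sum_filter, ← card_eq_sum_ones]
  by_cases hli : LinearIndependent F fun i => w (f i)
  · refine hroot D f hli (fun i => ?_) _ fun T hT => ?_
    · rw [hP, Fintype.mem_piFinset] at hf
      exact mem_range.1 (hf i)
    · rw [mem_filter, mem_Ico, mem_indep] at hT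
      exact ⟨by omega, fun i => ((hE T _).1 (hT.2.1 i)).2⟩
  · rw [filter_false_of_mem (fun T _ h => hli (mem_indep.1 h).2), card_empty]
    exact Nat.zero_le _

theorem sum_windows_ge {Z : Set ℕ} [DecidablePred (· ∈ Z)] {D M N : ℕ} {E : ℕ → Finset ℕ}
    (hE : ∀ T, ∀ j, j ∈ E T ↔ j < D ∧ T + j ∈ Z) :
    D * (((Ico M (M + N)).filter (· ∈ Z)).card - D) ≤ ∑ T ∈ Ico M (M + N), (E T).card := by
  classical
  have h1 : ∀ T, (E T).card = ∑ j ∈ range D, if T + j ∈ Z then 1 else 0 := by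
    intro T
    rw [← sum_filter, ← card_eq_sum_ones]
    congr 1
    ext j
    rw [mem_filter, hE, mem_range]
  simp_rw [h1]
  rw [sum_comm]
  have h2 : ∀ j ∈ range D, ((Ico M (M + N)).filter (· ∈ Z)).card - D ≤
      ∑ T ∈ Ico M (M + N), if T + j ∈ Z then 1 else 0 := by
    intro j hj
    rw [mem_range] at hj
    rw [← sum_filter, ← card_eq_sum_ones]
    have h3 : ((Ico M (M + N)).filter (· ∈ Z)) ⊆ Ico M (M + j) ∪
        ((Ico M (M + N)).filter (fun T => T + j ∈ Z)).image (fun T => T + j) := by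
      intro z hz
      rw [mem_filter, mem_Ico] at hz
      rw [mem_union, mem_Ico, mem_image]
      rcases lt_or_ge z (M + j) with h | h
      · exact Or.inl ⟨hz.1.1, h⟩
      · refine Or.inr ⟨z - j, ?_, by omega⟩
        rw [mem_filter, mem_Ico]
        refine ⟨by omega, ?_⟩
        rw [Nat.sub_add_cancel (by omega)]
        exact hz.2
    have h4 := (card_le_card h3).trans ((card_union_le _ _).trans
      (Nat.add_le_add_left card_image_le _))
    rw [Nat.card_Ico] at h4
    omega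
  calc D * (((Ico M (M + N)).filter (· ∈ Z)).card - D) =
      ∑ j ∈ range D, (((Ico M (M + N)).filter (· ∈ Z)).card - D) := by
        rw [sum_const, card_range, smul_eq_mul]
    _ ≤ _ := sum_le_sum h2

end Pool.Agent.Lib.MP_1eeaa7_nt.PS
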