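import Pool.Agent.Lib.MP_1eeaa7_nt.PS.Count

/-!
# The power saving
-/

set_option autoImplicit false

namespace Pool.Agent.Lib.MP_1eeaa7_nt.PS

open Finset Submodule

variable {F V : Type*} [Field F] [AddCommGroup V] [Module F V] {w : ℕ → V}

/-- choice of the window length -/
theorem optimise {m : ℕ} (hm0 : 0 < m) {N Z C : ℕ} (hN : 1 ≤ N) {S : ℕ → ℝ}
    (hS : ∀ D, 1 ≤ D → (S D) ^ m ≤ (N : ℝ) ^ (m - 1) * ((D : ℝ) ^ m * (C * D)))
    (hZ : ∀ D : ℕ, 1 ≤ D → (D : ℝ) * (Z - D) ≤ N * G D (m - 1) + S D) :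
    (Z : ℝ) ≤ (2 + 4 * m + 2 * (C + 1)) * (N : ℝ) ^ (1 - (2 * (m : ℝ) - 1)⁻¹) := by
  have hμ : (1 : ℝ) ≤ m := by exact_mod_cast hm0
  have hN' : (1 : ℝ) ≤ N := by exact_mod_cast hN
  have hN0 : (0 : ℝ) < N := by linarith
  set θ : ℝ := (2 * (m : ℝ) - 1)⁻¹ with hθ
  have h2m : (0 : ℝ) < 2 * m - 1 := by linarith
  have hθ0 : 0 < θ := inv_pos.2 h2m
  have hθm : θ * (2 * m - 1) = 1 := inv_mul_cancel₀ h2m.ne'
  set a : ℝ := (m - 1) * θ with ha
  have ha0 : 0 ≤ a := mul_nonneg (by linarith) hθ0.le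
  have haθ : a ≤ 1 - θ := by
    rw [ha]
    nlinarith
  set Na : ℝ := (N : ℝ) ^ a with hNa
  have hNa1 : 1 ≤ Na := Real.one_le_rpow hN' ha0
  set D : ℕ := ⌈Na⌉₊ with hD
  have hD1 : Na ≤ D := Nat.le_ceil _
  have hD2 : (D : ℝ) ≤ 2 * Na := by
    have := (Nat.ceil_lt_add_one (a := Na) (by linarith)).le
    linarith
  have hDpos : (1 : ℝ) ≤ D := hNa1.trans hD1
  have hDn : 1 ≤ D := by exact_mod_cast hDpos
  have hD0 : (0 : ℝ) < D := by linarith
  set Nt : ℝ := (N : ℝ) ^ (1 - θ) with hNt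
  have hNaNt : Na ≤ Nt := Real.rpow_le_rpow_of_exponent_le hN' haθ
  have hNt0 : 0 ≤ Nt := Real.rpow_nonneg hN0.le _
  -- the three terms
  have hG : (N : ℝ) * G D (m - 1) ≤ (D : ℝ) * (4 * m * Nt) := by
    have h1 := G_le hDn (m - 1)
    rcases Nat.lt_or_ge m 2 with hm2 | hm2
    · have hm1 : m = 1 := by omega
      have hz : m - 1 = 0 := by omega
      rw [hz, G]
      simp only [Nat.cast_zero, mul_zero]
      positivity
    · set b : ℝ := ((m - 1 : ℕ) : ℝ)⁻¹ with hb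
      have hcast : ((m - 1 : ℕ) : ℝ) = m - 1 := by
        rw [Nat.cast_sub (by omega)]; norm_num
      have hm1 : (0 : ℝ) < m - 1 := by
        have : (2 : ℝ) ≤ m := by exact_mod_cast hm2
        linarith
      have hb0 : 0 < b := by rw [hb, hcast]; exact inv_pos.2 hm1
      have hab : a * b = θ := by
        rw [ha, hb, hcast]
        field_simp
      have h2 : (D : ℝ) ^ (1 - b) = D * (D : ℝ) ^ (-b) := by
        rw [Real.rpow_sub hD0, Real.rpow_one, Real.rpow_neg hD0.le]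
        rfl
      have h3 : (D : ℝ) ^ (-b) ≤ (N : ℝ) ^ (-θ) := by
        rw [Real.rpow_neg hD0.le, Real.rpow_neg hN0.le]
        refine inv_anti₀ (Real.rpow_pos_of_pos hN0 _) ?_
        calc (N : ℝ) ^ θ = Na ^ b := by rw [hNa, ← Real.rpow_mul hN0.le, hab]
          _ ≤ (D : ℝ) ^ b := Real.rpow_le_rpow (by linarith) hD1 hb0.le
      have h4 : (N : ℝ) * (N : ℝ) ^ (-θ) = Nt := by
        rw [hNt, Real.rpow_sub hN0, Real.rpow_one, Real.rpow_neg hN0.le]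
        rfl
      calc (N : ℝ) * G D (m - 1) ≤ N * (4 * ((m - 1 : ℕ) : ℝ) * (D : ℝ) ^ (1 - b)) :=
            mul_le_mul_of_nonneg_left h1 hN0.le
        _ = D * (4 * ((m - 1 : ℕ) : ℝ) * (N * (D : ℝ) ^ (-b))) := by rw [h2]; ring
        _ ≤ D * (4 * m * (N * (N : ℝ) ^ (-θ))) := by
            refine mul_le_mul_of_nonneg_left ?_ hD0.le
            refine mul_le_mul ?_ (mul_le_mul_of_nonneg_left h3 hN0.le) (by positivity)
              (by positivity)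
            rw [hcast]
            linarith
        _ = _ := by rw [h4]
  have hSb : S D ≤ D * (2 * (C + 1) * Nt) := by
    have hm' : (m : ℝ) ≠ 0 := by positivity
    set R : ℝ := (C + 1) * (N : ℝ) ^ (((m : ℝ) - 1) / m) * (D : ℝ) ^ (((m : ℝ) + 1) / m) with hR
    have hR0 : 0 ≤ R := by positivity
    have h1 : S D ≤ R := by
      refine le_of_pow_le_pow_left₀ hm0.ne' hR0 ((hS D hDn).trans ?_)
      rw [hR, mul_pow, mul_pow]
      have e1 : ((N : ℝ) ^ (((m : ℝ) - 1) / m)) ^ m = (N : ℝ) ^ (m - 1) := by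
        rw [← Real.rpow_natCast, ← Real.rpow_mul hN0.le, div_mul_cancel₀ _ hm', ← Real.rpow_natCast,
          Nat.cast_sub hm0]
        norm_num
      have e2 : ((D : ℝ) ^ (((m : ℝ) + 1) / m)) ^ m = (D : ℝ) ^ (m + 1) := by
        rw [← Real.rpow_natCast, ← Real.rpow_mul hD0.le, div_mul_cancel₀ _ hm', ← Real.rpow_natCast]
        norm_num
      rw [e1, e2, pow_succ]
      have e3 : (C : ℝ) ≤ ((C : ℝ) + 1) ^ m := by
        calc (C : ℝ) ≤ (C + 1) ^ 1 := by linarith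
          _ ≤ (C + 1) ^ m := pow_le_pow_right₀ (by linarith [(Nat.cast_nonneg C : (0 : ℝ) ≤ C)]) hm0
      have e4 : 0 ≤ (N : ℝ) ^ (m - 1) * ((D : ℝ) ^ m * D) := by positivity
      nlinarith
    refine h1.trans ?_
    have h2 : (D : ℝ) ^ (((m : ℝ) + 1) / m) = D * (D : ℝ) ^ ((m : ℝ)⁻¹) := by
      rw [show ((m : ℝ) + 1) / m = 1 + (m : ℝ)⁻¹ by field_simp, Real.rpow_add hD0, Real.rpow_one]
    have hinv0 : (0 : ℝ) < (m : ℝ)⁻¹ := by positivity
    have hinv1 : (m : ℝ)⁻¹ ≤ 1 := inv_le_one_of_one_le₀ hμ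
    have h3 : (D : ℝ) ^ ((m : ℝ)⁻¹) ≤ 2 * Na ^ ((m : ℝ)⁻¹) := by
      calc (D : ℝ) ^ ((m : ℝ)⁻¹) ≤ (2 * Na) ^ ((m : ℝ)⁻¹) := Real.rpow_le_rpow hD0.le hD2 hinv0.le
        _ = 2 ^ ((m : ℝ)⁻¹) * Na ^ ((m : ℝ)⁻¹) := Real.mul_rpow (by norm_num) (by linarith)
        _ ≤ 2 * Na ^ ((m : ℝ)⁻¹) := by
            refine mul_le_mul_of_nonneg_right ?_ (by positivity)
            calc (2 : ℝ) ^ ((m : ℝ)⁻¹) ≤ 2 ^ (1 : ℝ) :=
                  Real.rpow_le_rpow_of_exponent_le (by norm_num) hinv1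
              _ = 2 := Real.rpow_one 2
    have h4 : (N : ℝ) ^ (((m : ℝ) - 1) / m) * Na ^ ((m : ℝ)⁻¹) = Nt := by
      rw [hNa, ← Real.rpow_mul hN0.le, ← Real.rpow_add hN0, hNt]
      congr 1
      rw [ha]
      field_simp
      nlinarith
    calc R = D * ((C + 1) * (N : ℝ) ^ (((m : ℝ) - 1) / m) * (D : ℝ) ^ ((m : ℝ)⁻¹)) := by
          rw [hR, h2]; ring
      _ ≤ D * ((C + 1) * (N : ℝ) ^ (((m : ℝ) - 1) / m) * (2 * Na ^ ((m : ℝ)⁻¹))) := by
          refine mul_le_mul_of_nonneg_left (mul_le_mul_of_nonneg_left h3 (by positivity)) hD0.le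
      _ = D * (2 * (C + 1) * ((N : ℝ) ^ (((m : ℝ) - 1) / m) * Na ^ ((m : ℝ)⁻¹))) := by ring
      _ = _ := by rw [h4]
  have hfin : (D : ℝ) * (Z - D) ≤ D * (4 * m * Nt + 2 * (C + 1) * Nt) := by
    have := hZ D hDn
    linarith
  have h5 := le_of_mul_le_mul_left hfin hD0
  nlinarith

theorem count_main [FiniteDimensional F V] (hTI : TI F w) (hfull : Full F w) {m : ℕ}
    (hm : Module.finrank F (span F (Set.range w)) = m) (hm0 : 0 < m) {Z : Set ℕ}
    [DecidablePred (· ∈ Z)] {T₀ C : ℕ}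
    (hroot : ∀ (D : ℕ) (f : Fin m → ℕ), LinearIndependent F (fun i => w (f i)) →
      (∀ i, f i < D) → ∀ s : Finset ℕ, (∀ T ∈ s, T₀ ≤ T ∧ ∀ i, T + f i ∈ Z) → s.card ≤ C * D)
    {M N : ℕ} (hM : T₀ ≤ M) (hN : 1 ≤ N) :
    (((Ico M (M + N)).filter (· ∈ Z)).card : ℝ) ≤
      (2 + 4 * m + 2 * (C + 1)) * (N : ℝ) ^ (1 - (2 * (m : ℝ) - 1)⁻¹) := by
  classical
  set E : ℕ → ℕ → Finset ℕ := fun D T => (range D).filter fun j => T + j ∈ Z with hE
  have hE' : ∀ D T, ∀ j, j ∈ E D T ↔ j < D ∧ T + j ∈ Z := by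
    intro D T j
    rw [hE, mem_filter, mem_range]
  refine optimise hm0 hN (S := fun D => ∑ T ∈ Ico M (M + N),
    (((E D T).card - G D (m - 1) : ℕ) : ℝ)) (fun D hD => ?_) (fun D hD => ?_)
  · have h1 : ∑ T ∈ Ico M (M + N), ((E D T).card - G D (m - 1)) ^ m ≤ D ^ m * (C * D) := by
      refine (sum_le_sum fun T _ => ?_).trans (sum_indep_le hroot hM (hE' D))
      exact indep_window hTI hfull hm (filter_subset _ _)
    have h2 := pow_sum_div_card_le_sum_pow (s := Ico M (M + N))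
      (f := fun T => (((E D T).card - G D (m - 1) : ℕ) : ℝ)) (fun _ _ => Nat.cast_nonneg _) (m - 1)
    rw [Nat.sub_add_cancel hm0, Nat.card_Ico, Nat.add_sub_cancel_left] at h2
    have hN0 : (0 : ℝ) < (N : ℝ) ^ (m - 1) := by
      have : (0 : ℝ) < N := by exact_mod_cast hN
      positivity
    rw [div_le_iff₀ hN0] at h2
    refine h2.trans ?_
    rw [mul_comm]
    refine mul_le_mul_of_nonneg_left ?_ hN0.le
    exact_mod_cast h1
  · have h1 := sum_windows_ge (M := M) (N := N) (hE' D)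
    have h2 : ∑ T ∈ Ico M (M + N), (E D T).card ≤
        N * G D (m - 1) + ∑ T ∈ Ico M (M + N), ((E D T).card - G D (m - 1)) := by
      have h3 : N * G D (m - 1) = ∑ T ∈ Ico M (M + N), G D (m - 1) := by
        rw [sum_const, Nat.card_Ico, Nat.add_sub_cancel_left, smul_eq_mul]
      rw [h3, ← sum_add_distrib]
      exact sum_le_sum fun T _ => by omega
    have h4 : ((D * (((Ico M (M + N)).filter (· ∈ Z)).card - D) : ℕ) : ℝ) ≤
        ((N * G D (m - 1) + ∑ T ∈ Ico M (M + N), ((E D T).card - G D (m - 1)) : ℕ) : ℝ) := by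
      exact_mod_cast h1.trans h2
    rw [Nat.cast_mul] at h4
    have h5 : ((((Ico M (M + N)).filter (· ∈ Z)).card : ℝ) - D) ≤
        ((((Ico M (M + N)).filter (· ∈ Z)).card - D : ℕ) : ℝ) := by
      rw [sub_le_iff_le_add]
      exact_mod_cast (le_tsub_add : ((Ico M (M + N)).filter (· ∈ Z)).card ≤
        ((Ico M (M + N)).filter (· ∈ Z)).card - D + D)
    have h6 : (D : ℝ) * ((((Ico M (M + N)).filter (· ∈ Z)).card : ℝ) - D) ≤
        (D : ℝ) * ((((Ico M (M + N)).filter (· ∈ Z)).card - D : ℕ) : ℝ) :=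
      mul_le_mul_of_nonneg_left h5 (Nat.cast_nonneg _)
    refine h6.trans (h4.trans (le_of_eq ?_))
    push_cast
    rfl

end Pool.Agent.Lib.MP_1eeaa7_nt.PS
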