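import Pool.Agent.Lib.MP_1eeaa7_nt.PS.Trans

/-!
# A subprogression all of whose progressions span
-/

set_option autoImplicit false

namespace Pool.Agent.Lib.MP_1eeaa7_nt.PS

open Finset Submodule

variable {F V : Type*} [Field F] [AddCommGroup V] [Module F V] {w : ℕ → V}

theorem TI.mul (h : TI F w) (q : ℕ) : TI F fun j => w (q * j) := by
  intro k f
  have h1 := h.shift q k fun i => q * f i
  simp only [mul_add, mul_one]
  exact h1

theorem exists_indep_family [FiniteDimensional F V] (u : ℕ → V) :
    ∃ f : Fin (Module.finrank F (span F (Set.range u))) → ℕ,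
      LinearIndependent F fun i => u (f i) := by
  obtain ⟨g, hg, -, hli⟩ := exists_fun_fin_finrank_span_eq F (Set.range u)
  choose f hf using hg
  refine ⟨f, ?_⟩
  have : (fun i => u (f i)) = g := funext hf
  rw [this]
  exact hli

theorem exists_full [FiniteDimensional F V] (h : TI F w) :
    ∃ q, 0 < q ∧ TI F (fun j => w (q * j)) ∧ Full F (fun j => w (q * j)) := by
  classical
  have hex : ∃ m, ∃ q, 0 < q ∧ Module.finrank F (span F (Set.range fun j => w (q * j))) = m :=
    ⟨_, 1, one_pos, rfl⟩
  obtain ⟨q, hq, hqm⟩ := Nat.find_spec hex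
  have hmin : ∀ s, 0 < s → Nat.find hex ≤
      Module.finrank F (span F (Set.range fun j => w (s * j))) := fun s hs =>
    Nat.find_min' hex ⟨s, hs, rfl⟩
  refine ⟨q, hq, h.mul q, ?_⟩
  intro U s c hs hU j
  set W := span F (Set.range fun j => w (q * j)) with hW
  set W' := span F (Set.range fun t => w (q * (c + s * t))) with hW'
  have h1 : W' ≤ W := by
    refine span_le.2 ?_
    rintro _ ⟨t, rfl⟩
    exact subset_span ⟨c + s * t, rfl⟩
  have h2 : Module.finrank F W ≤ Module.finrank F W' := by
    obtain ⟨f, hf⟩ := exists_indep_family (F := F) fun j => w (q * s * j)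
    have h3 := (h.shift (q * c) _ fun i => q * s * f i).1 hf
    have h4 := hmin (q * s) (Nat.mul_pos hq hs)
    rw [hW, hqm]
    refine h4.trans ?_
    have h5 := finrank_span_eq_card h3
    rw [Fintype.card_fin] at h5
    rw [← h5]
    refine Submodule.finrank_mono (span_le.2 ?_)
    rintro _ ⟨i, rfl⟩
    refine subset_span ⟨f i, ?_⟩
    show w (q * (c + s * f i)) = w (q * s * f i + q * c)
    congr 1
    ring
  have h3 : W' = W := eq_of_le_of_finrank_le h1 h2
  have h4 : w (q * j) ∈ W' := by
    rw [h3]
    exact subset_span ⟨j, rfl⟩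
  have h5 : W' ≤ U := by
    refine span_le.2 ?_
    rintro _ ⟨t, rfl⟩
    exact hU t
  exact h5 h4

end Pool.Agent.Lib.MP_1eeaa7_nt.PS
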