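import Pool.Agent.Lib.MP_1eeaa7_nt.PS.Module

/-!
# Minors
-/

set_option autoImplicit false

namespace Pool.Agent.Lib.MP_1eeaa7_nt.PS

open Finset Submodule Polynomial

theorem exists_minor {F : Type*} [Field F] {m r : ℕ} (M : Fin m → Fin r → F)
    (h : LinearIndependent F M) :
    ∃ J : Fin m → Fin r, (Matrix.of fun i k => M i (J k)).det ≠ 0 := by
  set A : Matrix (Fin m) (Fin r) F := Matrix.of M with hA
  have h1 : A.rank = m := by
    have := LinearIndependent.rank_matrix (M := A) h
    simpa using this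
  have h2 : Module.finrank F (span F (Set.range A.col)) = m := by
    rw [← Matrix.rank_eq_finrank_span_cols, h1]
  obtain ⟨g, hg, -, hli⟩ := exists_fun_fin_finrank_span_eq F (Set.range A.col)
  choose J hJ using hg
  refine ⟨fun k => J (Fin.cast h2.symm k), ?_⟩
  set B : Matrix (Fin m) (Fin m) F := Matrix.of fun i k => M i (J (Fin.cast h2.symm k)) with hB
  have h3 : LinearIndependent F B.col := by
    have h4 : B.col = fun k => g (Fin.cast h2.symm k) := by
      funext k i
      rw [← hJ]
      rfl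
    rw [h4]
    exact hli.comp _ (Fin.cast_injective _)
  rw [Matrix.linearIndependent_cols_iff_isUnit, Matrix.isUnit_iff_isUnit_det] at h3
  exact h3.ne_zero

theorem natDegree_det {K : Type*} [Field K] {m : ℕ} (B : Matrix (Fin m) (Fin m) K[X]) {L : ℕ}
    (hL : ∀ i j, (B i j).natDegree ≤ L) : B.det.natDegree ≤ m * L := by
  rw [Matrix.det_apply]
  refine natDegree_sum_le_of_forall_le _ _ fun σ _ => ?_
  have h1 : (Equiv.Perm.sign σ • ∏ i, B (σ i) i) =
      C (((Equiv.Perm.sign σ : ℤˣ) : ℤ) : K) * ∏ i, B (σ i) i := by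
    rw [Units.smul_def, zsmul_eq_mul]
    simp
  rw [h1]
  refine (natDegree_C_mul_le _ _).trans ?_
  refine (natDegree_prod_le _ _).trans ?_
  refine (sum_le_card_nsmul _ _ L fun i _ => hL _ _).trans ?_
  simp

variable {K : Type*} [Field K] {ρ : ℕ} (P : ℕ → K[X])

/-- the main algebraic fact: an independent pattern of zeros kills the whole class -/
theorem kill {q m : ℕ}
    (hm : Module.finrank (FractionRing K[X])
      (span (FractionRing K[X]) (Set.range fun j => Vf ρ P (q * j))) = m)
    {d : ℕ} (hd : ∀ j ≤ ρ + 1, (P j).natDegree ≤ d) {D : ℕ} {f : Fin m → ℕ} (hf : ∀ i, f i < D)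
    (hli : LinearIndependent (FractionRing K[X]) fun i => Vf ρ P (q * f i)) :
    ∃ δ : K[X], δ ≠ 0 ∧ δ.natDegree ≤ m * (d * (q * D)) ∧
      ∀ {a : ℕ → K} {n₀ : ℕ},
        (∀ n, n₀ ≤ n → ∑ j ∈ range (ρ + 2), (P j).eval (n : K) * a (n + j) = 0) →
        (∀ n : ℕ, n₀ ≤ n → (P (ρ + 1)).eval (n : K) ≠ 0) →
        ∀ n, n₀ ≤ n → δ.eval (n : K) ≠ 0 → (∀ i, a (n + q * f i) = 0) →
          ∀ j, a (n + q * j) = 0 := by
  obtain ⟨J, hJ⟩ := exists_minor _ hli
  set B : Matrix (Fin m) (Fin m) K[X] := Matrix.of fun i k => Vp ρ P (q * f i) (J k) with hB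
  have hBdet : algebraMap K[X] (FractionRing K[X]) B.det =
      (Matrix.of fun i k => Vf ρ P (q * f i) (J k)).det := by
    rw [RingHom.map_det]
    rfl
  have hB0 : B.det ≠ 0 := by
    intro h
    rw [← hBdet, h, map_zero] at hJ
    exact hJ rfl
  refine ⟨B.det, hB0, ?_, ?_⟩
  · refine natDegree_det B fun i k => ?_
    refine (natDegree_Vp P hd _ _).trans ?_
    exact Nat.mul_le_mul_left _ (Nat.mul_le_mul_left _ (hf i).le)
  intro a n₀ hrec hlead n hn hδ ha j
  -- the identity over the polynomial ring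
  have hspan : Vf ρ P (q * j) ∈ span (FractionRing K[X])
      (Set.range fun i => Vf ρ P (q * f i)) := by
    have h1 : span (FractionRing K[X]) (Set.range fun i => Vf ρ P (q * f i)) =
        span (FractionRing K[X]) (Set.range fun j => Vf ρ P (q * j)) := by
      refine eq_of_le_of_finrank_le (span_mono ?_) ?_
      · rintro _ ⟨i, rfl⟩
        exact ⟨f i, rfl⟩
      · rw [hm, finrank_span_eq_card hli, Fintype.card_fin]
    rw [h1]
    exact subset_span ⟨j, rfl⟩
  obtain ⟨c, hc⟩ := (mem_span_range_iff_exists_fun _).1 hspan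
  have hcJ : Matrix.vecMul c (B.map (algebraMap K[X] (FractionRing K[X]))) =
      fun k => algebraMap K[X] (FractionRing K[X]) (Vp ρ P (q * j) (J k)) := by
    funext k
    have h2 := congrFun hc (J k)
    rw [Finset.sum_apply] at h2
    simp only [Pi.smul_apply, smul_eq_mul] at h2
    simp only [Matrix.vecMul, dotProduct, Matrix.map_apply]
    exact h2
  set g : Fin m → K[X] := Matrix.vecMul (fun k => Vp ρ P (q * j) (J k)) B.adjugate with hg
  have hgc : ∀ i, algebraMap K[X] (FractionRing K[X]) (g i) =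
      algebraMap K[X] (FractionRing K[X]) B.det * c i := by
    intro i
    have h3 := congrArg (fun v => Matrix.vecMul v
      (B.adjugate.map (algebraMap K[X] (FractionRing K[X])))) hcJ
    simp only [Matrix.vecMul_vecMul] at h3
    rw [← Matrix.map_mul, Matrix.mul_adjugate] at h3
    have h4 := congrFun h3 i
    rw [RingHom.map_vecMul] 
    have h5 : (B.det • (1 : Matrix (Fin m) (Fin m) K[X])).map
        (algebraMap K[X] (FractionRing K[X])) =
        algebraMap K[X] (FractionRing K[X]) B.det • (1 : Matrix (Fin m) (Fin m) _) := by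
      ext x y
      simp only [Matrix.map_apply, Matrix.smul_apply, Matrix.one_apply, smul_eq_mul, map_mul]
      split_ifs <;> simp
    rw [h5, Matrix.vecMul_smul, Matrix.vecMul_one] at h4
    simp only [Pi.smul_apply, smul_eq_mul] at h4
    exact h4.symm
  have hid : ∀ l, B.det * Vp ρ P (q * j) l = ∑ i, g i * Vp ρ P (q * f i) l := by
    intro l
    apply IsFractionRing.injective K[X] (FractionRing K[X])
    rw [map_mul, map_sum]
    have h2 := congrFun hc l
    rw [Finset.sum_apply] at h2
    simp only [Pi.smul_apply, smul_eq_mul] at h2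
    have h6 : algebraMap K[X] (FractionRing K[X]) (Vp ρ P (q * j) l) = Vf ρ P (q * j) l := rfl
    rw [h6, ← h2, mul_sum]
    refine sum_congr rfl fun i _ => ?_
    rw [map_mul, hgc]
    show _ = _ * Vf ρ P (q * f i) l
    ring
  have h7 : B.det.eval (n : K) * ∑ l : Fin (ρ + 1), (Vp ρ P (q * j) l).eval (n : K) * a (n + l) =
      0 := by
    rw [mul_sum]
    have h8 : ∀ l : Fin (ρ + 1), B.det.eval (n : K) *
        ((Vp ρ P (q * j) l).eval (n : K) * a (n + l)) =
        ∑ i, (g i).eval (n : K) * ((Vp ρ P (q * f i) l).eval (n : K) * a (n + l)) := by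
      intro l
      have h9 := congrArg (eval (n : K)) (hid l)
      rw [eval_mul, eval_finsetSum] at h9
      rw [← mul_assoc, h9, sum_mul]
      refine sum_congr rfl fun i _ => ?_
      rw [eval_mul]
      ring
    rw [sum_congr rfl fun l _ => h8 l, sum_comm]
    refine sum_eq_zero fun i _ => ?_
    rw [← mul_sum, ← rec_identity P hrec (q * f i) n hn, ha i, mul_zero, mul_zero]
  have h10 := (mul_eq_zero.1 h7).resolve_left hδ
  rw [← rec_identity P hrec (q * j) n hn] at h10
  exact (mul_eq_zero.1 h10).resolve_left (Qd_ne P hlead _ n hn)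

end Pool.Agent.Lib.MP_1eeaa7_nt.PS
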