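import Pool.Agent.Lib.MP_1eeaa7_nt.PS.CountMain

/-!
# The vectors of a recurrence with polynomial coefficients
-/

set_option autoImplicit false

namespace Pool.Agent.Lib.MP_1eeaa7_nt.PS

open Finset Submodule Polynomial

variable {K : Type*} [Field K] {ρ : ℕ} (P : ℕ → K[X])

/-- one step of the companion system -/
noncomputable def step (u : Fin (ρ + 1) → K[X]) : Fin (ρ + 1) → K[X] := fun j =>
  (Fin.cases 0 (fun i => P (ρ + 1) * (u i.castSucc).comp (X + 1)) j : K[X]) -
    (u (Fin.last ρ)).comp (X + 1) * P j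

variable (ρ) in
/-- the coefficient vectors -/
noncomputable def Vp : ℕ → Fin (ρ + 1) → K[X]
  | 0 => Pi.single 0 1
  | e + 1 => step P (Vp e)

variable (ρ) in
/-- the denominators -/
noncomputable def Qd : ℕ → K[X]
  | 0 => 1
  | e + 1 => P (ρ + 1) * (Qd e).comp (X + 1)

theorem step_add (u v : Fin (ρ + 1) → K[X]) : step P (u + v) = step P u + step P v := by
  funext j
  refine Fin.cases ?_ (fun i => ?_) j
  · simp only [step, Pi.add_apply, Fin.cases_zero, add_comp]
    ring
  · simp only [step, Pi.add_apply, Fin.cases_succ, add_comp]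
    ring

theorem step_smul (c : K[X]) (u : Fin (ρ + 1) → K[X]) :
    step P (c • u) = c.comp (X + 1) • step P u := by
  funext j
  refine Fin.cases ?_ (fun i => ?_) j
  · simp only [step, Pi.smul_apply, smul_eq_mul, Fin.cases_zero, mul_comp]
    ring
  · simp only [step, Pi.smul_apply, smul_eq_mul, Fin.cases_succ, mul_comp]
    ring

theorem step_zero : step P (0 : Fin (ρ + 1) → K[X]) = 0 := by
  have := step_smul P (0 : K[X]) (0 : Fin (ρ + 1) → K[X])
  simpa using this

theorem step_sum {ι : Type*} (s : Finset ι) (u : ι → Fin (ρ + 1) → K[X]) :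
    step P (∑ i ∈ s, u i) = ∑ i ∈ s, step P (u i) := by
  classical
  induction s using Finset.induction_on with
  | empty => simp [step_zero]
  | insert a s ha ih => rw [sum_insert ha, sum_insert ha, step_add, ih]

theorem comp_X_add_one_eq_zero {p : K[X]} (h : p.comp (X + 1) = 0) : p = 0 := by
  have h1 : (p.comp (X + 1)).comp (X - 1) = p := by
    rw [comp_assoc]
    simp
  rw [← h1, h, zero_comp]

theorem step_inj (h0 : P 0 ≠ 0) (h1 : P (ρ + 1) ≠ 0) {u : Fin (ρ + 1) → K[X]}
    (hu : step P u = 0) : u = 0 := by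
  have h2 := congrFun hu 0
  simp only [step, Fin.cases_zero, zero_sub, Pi.zero_apply, neg_eq_zero, mul_eq_zero,
    Fin.val_zero, h0, or_false] at h2
  funext j
  refine Fin.lastCases ?_ (fun i => ?_) j
  · exact comp_X_add_one_eq_zero h2
  · have h3 := congrFun hu i.succ
    simp only [step, Fin.cases_succ, h2, zero_mul, sub_zero, Pi.zero_apply, mul_eq_zero, h1,
      false_or] at h3
    exact comp_X_add_one_eq_zero h3

theorem li_step {k : ℕ} (h0 : P 0 ≠ 0) (h1 : P (ρ + 1) ≠ 0) (u : Fin k → Fin (ρ + 1) → K[X]) :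
    LinearIndependent K[X] u ↔ LinearIndependent K[X] fun i => step P (u i) := by
  rw [Fintype.linearIndependent_iff, Fintype.linearIndependent_iff]
  constructor
  · intro h g hg i
    have h2 : ∀ i, ((g i).comp (X - 1)).comp (X + 1) = g i := fun i => by
      rw [comp_assoc]
      simp
    have h3 : step P (∑ i, (g i).comp (X - 1) • u i) = 0 := by
      rw [step_sum, ← hg]
      refine sum_congr rfl fun i _ => ?_
      rw [step_smul, h2]
    have h4 := h _ (step_inj P h0 h1 h3) i
    rw [← h2 i, h4, zero_comp]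
  · intro h g hg i
    have h3 : ∑ i, (g i).comp (X + 1) • step P (u i) = 0 := by
      have h4 := congrArg (step P) hg
      rw [step_zero, step_sum] at h4
      rw [← h4]
      refine sum_congr rfl fun i _ => ?_
      rw [step_smul]
    exact comp_X_add_one_eq_zero (h _ h3 i)

variable (ρ) in
/-- the vectors over the fraction field -/
noncomputable def Vf (e : ℕ) : Fin (ρ + 1) → FractionRing K[X] :=
  fun j => algebraMap K[X] (FractionRing K[X]) (Vp ρ P e j)

theorem li_frac {k : ℕ} (u : Fin k → Fin (ρ + 1) → K[X]) :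
    LinearIndependent K[X] u ↔ LinearIndependent (FractionRing K[X])
      fun i (j : Fin (ρ + 1)) => algebraMap K[X] (FractionRing K[X]) (u i j) := by
  rw [← LinearIndependent.iff_fractionRing K[X] (FractionRing K[X])]
  have hker : LinearMap.ker ((Algebra.linearMap K[X] (FractionRing K[X])).compLeft
      (Fin (ρ + 1))) = ⊥ := by
    rw [LinearMap.ker_eq_bot']
    intro v hv
    funext j
    have := congrFun hv j
    simpa using this
  rw [← LinearMap.linearIndependent_iff _ hker]
  rfl

theorem ti_Vf (h0 : P 0 ≠ 0) (h1 : P (ρ + 1) ≠ 0) : TI (FractionRing K[X]) (Vf ρ P) := by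
  intro k f
  have h2 := li_frac (fun i => Vp ρ P (f i))
  have h3 := li_frac (fun i => Vp ρ P (f i + 1))
  have h4 := li_step P h0 h1 (fun i => Vp ρ P (f i))
  unfold Vf
  rw [← h2, ← h3, h4]
  rfl

theorem Vf_zero_ne : Vf ρ P 0 ≠ 0 := by
  intro h
  have := congrFun h 0
  simp [Vf, Vp] at this

theorem natDegree_comp_X_add_one (p : K[X]) : (p.comp (X + 1)).natDegree = p.natDegree := by
  have : (X + 1 : K[X]) = X + C 1 := by simp
  rw [natDegree_comp, this, natDegree_X_add_C, mul_one]

theorem natDegree_Vp {d : ℕ} (hd : ∀ j ≤ ρ + 1, (P j).natDegree ≤ d) (e : ℕ) (j : Fin (ρ + 1)) :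
    (Vp ρ P e j).natDegree ≤ d * e := by
  induction e generalizing j with
  | zero =>
    refine Fin.cases ?_ (fun i => ?_) j
    · simp [Vp]
    · simp [Vp]
  | succ e ih =>
    have h2 : ∀ i : Fin (ρ + 1), ((Vp ρ P e i).comp (X + 1)).natDegree ≤ d * e := fun i => by
      rw [natDegree_comp_X_add_one]
      exact ih i
    show (step P (Vp ρ P e) j).natDegree ≤ _
    refine (natDegree_sub_le _ _).trans (max_le ?_ ?_)
    · refine Fin.cases ?_ (fun i => ?_) j
      · simp
      · simp only [Fin.cases_succ]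
        refine natDegree_mul_le.trans ?_
        have := hd (ρ + 1) le_rfl
        have := h2 i.castSucc
        rw [mul_add, mul_one]
        omega
    · refine natDegree_mul_le.trans ?_
      have := hd j (by have := j.2; omega)
      have := h2 (Fin.last ρ)
      rw [mul_add, mul_one]
      omega

theorem rec_identity {a : ℕ → K} {n₀ : ℕ}
    (hrec : ∀ n, n₀ ≤ n → ∑ j ∈ range (ρ + 2), (P j).eval (n : K) * a (n + j) = 0) (e : ℕ) :
    ∀ n, n₀ ≤ n → (Qd ρ P e).eval (n : K) * a (n + e) =
      ∑ j : Fin (ρ + 1), (Vp ρ P e j).eval (n : K) * a (n + j) := by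
  induction e with
  | zero =>
    intro n _
    rw [Fin.sum_univ_succ]
    simp [Vp, Qd]
  | succ e ih =>
    intro n hn
    have h1 := ih (n + 1) (by omega)
    have h2 : ∑ j : Fin (ρ + 1), (P j).eval (n : K) * a (n + j) =
        -((P (ρ + 1)).eval (n : K) * a (n + (ρ + 1))) := by
      have h3 := hrec n hn
      rw [sum_range_succ, ← Fin.sum_univ_eq_sum_range
        (fun j => (P j).eval (n : K) * a (n + j)) (ρ + 1)] at h3
      exact eq_neg_of_add_eq_zero_left h3
    have h4 : ∀ p : K[X], (p.comp (X + 1)).eval (n : K) = p.eval ((n + 1 : ℕ) : K) := fun p => by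
      simp
    have h5 : ∑ j : Fin (ρ + 1), (Vp ρ P (e + 1) j).eval (n : K) * a (n + j) =
        ∑ i : Fin ρ, (P (ρ + 1)).eval (n : K) * (Vp ρ P e i.castSucc).eval ((n + 1 : ℕ) : K) *
            a (n + (i + 1)) -
          (Vp ρ P e (Fin.last ρ)).eval ((n + 1 : ℕ) : K) *
            ∑ j : Fin (ρ + 1), (P j).eval (n : K) * a (n + j) := by
      have h6 : ∀ j : Fin (ρ + 1), (Vp ρ P (e + 1) j).eval (n : K) * a (n + j) =
          (Fin.cases 0 (fun i => (P (ρ + 1)).eval (n : K) *
            (Vp ρ P e i.castSucc).eval ((n + 1 : ℕ) : K)) j : K) * a (n + j) -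
          (Vp ρ P e (Fin.last ρ)).eval ((n + 1 : ℕ) : K) * ((P j).eval (n : K) * a (n + j)) := by
        intro j
        show (step P (Vp ρ P e) j).eval (n : K) * a (n + j) = _
        refine Fin.cases ?_ (fun i => ?_) j
        · simp only [step, Fin.cases_zero, eval_sub, eval_mul, h4, eval_zero]
          ring
        · simp only [step, Fin.cases_succ, eval_sub, eval_mul, h4]
          ring
      rw [sum_congr rfl fun j _ => h6 j, sum_sub_distrib, ← mul_sum, Fin.sum_univ_succ]
      simp only [Fin.cases_zero, Fin.cases_succ, zero_mul, zero_add, Fin.val_succ]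
    rw [h5, h2]
    rw [Fin.sum_univ_castSucc] at h1
    show (P (ρ + 1) * (Qd ρ P e).comp (X + 1)).eval (n : K) * a (n + (e + 1)) = _
    rw [eval_mul, h4, show n + (e + 1) = n + 1 + e by ring, mul_assoc, h1, mul_add, mul_sum]
    simp only [Fin.val_castSucc, Fin.val_last]
    rw [show n + (ρ + 1) = n + 1 + ρ by ring]
    have h7 : ∀ i : Fin ρ, (P (ρ + 1)).eval (n : K) *
        (Vp ρ P e i.castSucc).eval ((n + 1 : ℕ) : K) * a (n + (i + 1)) =
        (P (ρ + 1)).eval (n : K) * ((Vp ρ P e i.castSucc).eval ((n + 1 : ℕ) : K) *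
          a (n + 1 + i)) := fun i => by
      rw [show n + ((i : ℕ) + 1) = n + 1 + i by ring]
      ring
    rw [sum_congr rfl fun i _ => h7 i]
    ring

theorem Qd_ne {n₀ : ℕ} (h : ∀ n : ℕ, n₀ ≤ n → (P (ρ + 1)).eval (n : K) ≠ 0) (e : ℕ) :
    ∀ n : ℕ, n₀ ≤ n → (Qd ρ P e).eval (n : K) ≠ 0 := by
  induction e with
  | zero => intro n _; simp [Qd]
  | succ e ih =>
    intro n hn
    show (P (ρ + 1) * (Qd ρ P e).comp (X + 1)).eval (n : K) ≠ 0
    have h1 := ih (n + 1) (by omega)
    have h4 : ((Qd ρ P e).comp (X + 1)).eval (n : K) = (Qd ρ P e).eval ((n + 1 : ℕ) : K) := by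
      simp
    rw [eval_mul, h4]
    exact mul_ne_zero (h n hn) h1

end Pool.Agent.Lib.MP_1eeaa7_nt.PS
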