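import Pool.Agent.Lib.MP_1eeaa7_nt.PS.RecMain

/-!
# From the differential equation to the recurrence
-/

set_option autoImplicit false

namespace Pool.Agent.Lib.MP_1eeaa7_nt.PS

open Finset Polynomial

/-- the polynomials of the recurrence -/
noncomputable def Rp (m d : ℕ) (p : ℕ → ℂ[X]) (j : ℕ) : ℂ[X] :=
  ∑ i ∈ range (m + 1), ∑ k ∈ range (d + 1),
    if d - k + i = j then C ((p i).coeff k) * (ascPochhammer ℂ i).comp (X + C ((d - k + 1 : ℕ) : ℂ))
    else 0

theorem Rp_eval (m d : ℕ) (p : ℕ → ℂ[X]) (j n : ℕ) :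
    (Rp m d p j).eval (n : ℂ) = ∑ i ∈ range (m + 1), ∑ k ∈ range (d + 1),
      if d - k + i = j then (p i).coeff k * ((n + (d - k) + 1).ascFactorial i : ℂ) else 0 := by
  rw [Rp, eval_finsetSum]
  refine sum_congr rfl fun i _ => ?_
  rw [eval_finsetSum]
  refine sum_congr rfl fun k _ => ?_
  split_ifs
  · rw [eval_mul, eval_C, eval_comp]
    congr 1
    have h1 : (X + C ((d - k + 1 : ℕ) : ℂ)).eval (n : ℂ) = ((n + (d - k) + 1 : ℕ) : ℂ) := by
      rw [eval_add, eval_X, eval_C]
      push_cast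
      ring
    rw [h1, ← ascPochhammer_eval_cast, ascPochhammer_nat_eq_ascFactorial]
  · simp

theorem recurrence {m d : ℕ} {p : ℕ → ℂ[X]} (hd : ∀ i ≤ m, (p i).natDegree ≤ d)
    {f : PowerSeries ℂ}
    (hf : ∑ i ∈ range (m + 1), (p i : PowerSeries ℂ) * (⇑(PowerSeries.derivative ℂ))^[i] f = 0)
    (n : ℕ) : ∑ j ∈ range (m + d + 1), (Rp m d p j).eval (n : ℂ) * PowerSeries.coeff (n + j) f = 0 := by
  have h1 : ∀ i ∈ range (m + 1), PowerSeries.coeff (n + d)
      ((p i : PowerSeries ℂ) * (⇑(PowerSeries.derivative ℂ))^[i] f) =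
      ∑ k ∈ range (d + 1), (p i).coeff k * ((n + (d - k) + 1).ascFactorial i : ℂ) *
        PowerSeries.coeff (n + (d - k + i)) f := by
    intro i hi
    rw [mem_range] at hi
    rw [PowerSeries.coeff_mul, Finset.Nat.sum_antidiagonal_eq_sum_range_succ_mk]
    have h2 : range (d + 1) ⊆ range (n + d).succ := by
      intro x hx
      rw [mem_range] at hx ⊢
      omega
    rw [← sum_subset h2]
    · refine sum_congr rfl fun k hk => ?_
      rw [mem_range] at hk
      rw [PowerSeries.coeff_iterate_derivative, Polynomial.coeff_coe]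
      have h3 : n + d - k = n + (d - k) := by omega
      simp only [h3]
      rw [show n + (d - k) + i = n + (d - k + i) by ring]
      ring
    · intro k _ hk
      rw [mem_range, not_lt] at hk
      have h4 : (p i).coeff k = 0 := by
        apply coeff_eq_zero_of_natDegree_lt
        have := hd i (by omega)
        omega
      rw [Polynomial.coeff_coe]
      simp [h4]
  have h5 := congrArg (PowerSeries.coeff (n + d)) hf
  rw [map_sum, sum_congr rfl h1, map_zero] at h5
  rw [← h5]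
  have h6 : ∀ j ∈ range (m + d + 1), (Rp m d p j).eval (n : ℂ) * PowerSeries.coeff (n + j) f =
      ∑ i ∈ range (m + 1), ∑ k ∈ range (d + 1), if d - k + i = j then
        (p i).coeff k * ((n + (d - k) + 1).ascFactorial i : ℂ) * PowerSeries.coeff (n + j) f
        else 0 := by
    intro j _
    rw [Rp_eval, sum_mul]
    refine sum_congr rfl fun i _ => ?_
    rw [sum_mul]
    refine sum_congr rfl fun k _ => ?_
    split_ifs
    · rfl
    · simp
  rw [sum_congr rfl h6, sum_comm]
  refine sum_congr rfl fun i hi => ?_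
  rw [sum_comm]
  refine sum_congr rfl fun k hk => ?_
  rw [mem_range] at hi hk
  rw [sum_ite_eq, if_pos (mem_range.2 (by omega))]

theorem Rp_ne_zero {m d : ℕ} {p : ℕ → ℂ[X]} {i k : ℕ} (hi : i ≤ m) (hk : k ≤ d)
    (h : (p i).coeff k ≠ 0) : Rp m d p (d - k + i) ≠ 0 := by
  classical
  set j := d - k + i with hj
  -- the largest index
  set T := (range (m + 1)).filter fun i => ∃ k ≤ d, d - k + i = j ∧ (p i).coeff k ≠ 0 with hT
  have hTne : T.Nonempty := ⟨i, mem_filter.2 ⟨mem_range.2 (by omega), k, hk, rfl, h⟩⟩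
  set i₁ := T.max' hTne with hi₁
  have hi₁T : i₁ ∈ T := T.max'_mem hTne
  obtain ⟨hi₁m, k₁, hk₁, hjk, hpk⟩ := mem_filter.1 hi₁T
  intro h0
  have h1 : (Rp m d p j).coeff i₁ = (p i₁).coeff k₁ := by
    rw [Rp, finsetSum_coeff, sum_eq_single i₁]
    · rw [finsetSum_coeff, sum_eq_single k₁]
      · rw [if_pos hjk, coeff_C_mul]
        have h2 : ((ascPochhammer ℂ i₁).comp (X + C ((d - k₁ + 1 : ℕ) : ℂ))).Monic :=
          (monic_ascPochhammer ℂ i₁).comp (monic_X_add_C _) (by rw [natDegree_X_add_C]; exact one_ne_zero)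
        have h3 : ((ascPochhammer ℂ i₁).comp (X + C ((d - k₁ + 1 : ℕ) : ℂ))).natDegree = i₁ := by
          rw [natDegree_comp, natDegree_X_add_C, mul_one, ascPochhammer_natDegree]
        have h4 := h2.coeff_natDegree
        rw [h3] at h4
        rw [h4, mul_one]
      · intro k' hk' hne
        rw [mem_range] at hk'
        rw [if_neg (by omega), coeff_zero]
      · intro hnot
        exact absurd (mem_range.2 (by omega)) hnot
    · intro i' hi' hne
      rw [finsetSum_coeff]
      refine sum_eq_zero fun k' hk' => ?_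
      rw [mem_range] at hi' hk'
      split_ifs with hif
      · by_cases hz : (p i').coeff k' = 0
        · simp [hz]
        · have h5 : i' ∈ T := mem_filter.2 ⟨mem_range.2 hi', k', by omega, hif, hz⟩
          have h6 : i' ≤ i₁ := T.le_max' _ h5
          apply coeff_eq_zero_of_natDegree_lt
          refine (natDegree_C_mul_le _ _).trans_lt ?_
          rw [natDegree_comp, natDegree_X_add_C, mul_one, ascPochhammer_natDegree]
          omega
      · simp
    · intro hnot
      exact absurd hi₁m hnot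
  rw [h0, coeff_zero] at h1
  exact hpk h1.symm

theorem exists_of_Rp_ne {m d : ℕ} {p : ℕ → ℂ[X]} {j : ℕ} (h : Rp m d p j ≠ 0) :
    ∃ i ≤ m, ∃ k ≤ d, d - k + i = j ∧ (p i).coeff k ≠ 0 := by
  by_contra hne
  push Not at hne
  apply h
  rw [Rp]
  refine sum_eq_zero fun i hi => sum_eq_zero fun k hk => ?_
  rw [mem_range] at hi hk
  split_ifs with hif
  · rw [hne i (by omega) k (by omega) hif]
    simp
  · rfl

theorem finAP_tail (a : ℕ → ℂ) {q : ℕ} (hq : 0 < q) : ∃ F : Finset (ℕ × ℕ),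
    {n : ℕ | ∀ k, a (n + q * k) = 0} = ⋃ ad ∈ F, {m : ℕ | ∃ k : ℕ, m = ad.1 + ad.2 * k} := by
  classical
  set S : Set ℕ := {n : ℕ | ∀ k, a (n + q * k) = 0} with hS
  refine ⟨((range q).filter fun c => ∃ n ∈ S, n % q = c).image
    fun c => (sInf {n | n ∈ S ∧ n % q = c}, q), ?_⟩
  ext n
  simp only [Set.mem_iUnion, Set.mem_ofPred_eq, mem_image, mem_filter, mem_range, exists_prop,
    Prod.exists, Prod.mk.injEq]
  constructor
  · intro hn
    refine ⟨_, _, ⟨n % q, ⟨Nat.mod_lt n hq, n, hn, rfl⟩, rfl, rfl⟩, ?_⟩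
    have h1 := Nat.sInf_mem (s := {x | x ∈ S ∧ x % q = n % q}) ⟨n, hn, rfl⟩
    have h2 := Nat.sInf_le (s := {x | x ∈ S ∧ x % q = n % q}) (m := n) ⟨hn, rfl⟩
    set n₀ := sInf {x | x ∈ S ∧ x % q = n % q} with hn₀
    have h3 : n₀ ≡ n [MOD q] := h1.2
    obtain ⟨k, hk⟩ := (Nat.modEq_iff_dvd' h2).1 h3
    exact ⟨k, by omega⟩
  · rintro ⟨_, _, ⟨c, ⟨hc, x, hxS, hxc⟩, rfl, rfl⟩, k, rfl⟩
    have h1 := Nat.sInf_mem (s := {x | x ∈ S ∧ x % q = c}) ⟨x, hxS, hxc⟩
    intro k'
    have := h1.1 (k + k')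
    rw [← this]
    congr 1
    ring

end Pool.Agent.Lib.MP_1eeaa7_nt.PS
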