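import Pool.Agent.Lib.MP_1eeaa7_nt.PS.ODE

/-!
# The power saving bound for D-finite power series
-/

set_option autoImplicit false

namespace Pool.Agent.Lib.MP_1eeaa7_nt.PS

open Finset Polynomial

theorem ode_main (m : ℕ) (p : ℕ → ℂ[X]) (hp : ∃ i ≤ m, p i ≠ 0) (r : ℕ) (hr1 : 1 ≤ r)
    (hr : ∀ i ≤ m, ∀ i' ≤ m, ∀ k k', (p i).coeff k ≠ 0 → (p i').coeff k' ≠ 0 →
      i + k' ≤ i' + k + r) :
    ∃ q : ℕ, 0 < q ∧ ∃ C : ℝ, ∀ f : PowerSeries ℂ,
      ∑ i ∈ range (m + 1), (p i : PowerSeries ℂ) * (⇑(PowerSeries.derivative ℂ))^[i] f = 0 →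
      (∃ F : Finset (ℕ × ℕ), {n : ℕ | ∀ k, PowerSeries.coeff (n + q * k) f = 0} =
        ⋃ ad ∈ F, {m : ℕ | ∃ k : ℕ, m = ad.1 + ad.2 * k}) ∧
      ∀ M N : ℕ, 1 ≤ N →
        (({n : ℕ | M ≤ n ∧ n < M + N ∧ PowerSeries.coeff n f = 0 ∧
          ∃ k, PowerSeries.coeff (n + q * k) f ≠ 0}.ncard : ℕ) : ℝ) ≤
          C * (N : ℝ) ^ (1 - 1 / (2 * (r : ℝ) - 1)) := by
  classical
  set d := (range (m + 1)).sup fun i => (p i).natDegree with hd'
  have hd : ∀ i ≤ m, (p i).natDegree ≤ d := fun i hi =>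
    le_sup (f := fun i => (p i).natDegree) (mem_range.2 (by omega))
  set R := Rp m d p with hR
  have hex : ∃ j, j ≤ m + d ∧ R j ≠ 0 := by
    obtain ⟨i, hi, hpi⟩ := hp
    obtain ⟨k, hk⟩ : ∃ k, (p i).coeff k ≠ 0 := by
      by_contra hne
      push Not at hne
      exact hpi (ext fun k => by rw [hne k, coeff_zero])
    have hkd : k ≤ d := by
      by_contra hlt
      exact hk (coeff_eq_zero_of_natDegree_lt ((hd i hi).trans_lt (not_le.1 hlt)))
    exact ⟨d - k + i, by omega, Rp_ne_zero hi hkd hk⟩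
  set S := (range (m + d + 1)).filter fun j => R j ≠ 0 with hS
  have hSne : S.Nonempty := by
    obtain ⟨j, hj, hj'⟩ := hex
    exact ⟨j, mem_filter.2 ⟨mem_range.2 (by omega), hj'⟩⟩
  set j₀ := S.min' hSne with hj₀
  set j₁ := S.max' hSne with hj₁
  have hj₀S : j₀ ∈ S := S.min'_mem hSne
  have hj₁S : j₁ ∈ S := S.max'_mem hSne
  have hj₀₁ : j₀ ≤ j₁ := S.min'_le _ hj₁S
  have hwidth : j₁ ≤ j₀ + r := by
    obtain ⟨i, hi, k, hk, hjk, hpik⟩ := exists_of_Rp_ne (mem_filter.1 hj₁S).2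
    obtain ⟨i', hi', k', hk', hjk', hpik'⟩ := exists_of_Rp_ne (mem_filter.1 hj₀S).2
    have := hr i hi i' hi' k k' hpik hpik'
    omega
  have hj₁m : j₁ < m + d + 1 := mem_range.1 (mem_filter.1 hj₁S).1
  set P : ℕ → ℂ[X] := fun j => (R (j + j₀)).comp (X - C (j₀ : ℂ)) with hP
  have hPne : ∀ j, R (j + j₀) ≠ 0 → P j ≠ 0 := by
    intro j hj h
    apply hj
    have h1 : ((R (j + j₀)).comp (X - C (j₀ : ℂ))).comp (X + C (j₀ : ℂ)) = R (j + j₀) := by
      rw [comp_assoc]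
      simp
    rw [← h1]
    have h2 : (R (j + j₀)).comp (X - C (j₀ : ℂ)) = 0 := h
    rw [h2, zero_comp]
  have hP0 : P 0 ≠ 0 := hPne 0 (by rw [zero_add]; exact (mem_filter.1 hj₀S).2)
  have hP1 : P (j₁ - j₀) ≠ 0 := hPne _ (by
    rw [Nat.sub_add_cancel hj₀₁]
    exact (mem_filter.1 hj₁S).2)
  -- the recurrence
  have hrec : ∀ f : PowerSeries ℂ,
      ∑ i ∈ range (m + 1), (p i : PowerSeries ℂ) * (⇑(PowerSeries.derivative ℂ))^[i] f = 0 →
      ∀ n, j₀ ≤ n → ∑ j ∈ range (j₁ - j₀ + 1), (P j).eval (n : ℂ) *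
        (fun n => PowerSeries.coeff n f) (n + j) = 0 := by
    intro f hf n hn
    have h1 := recurrence hd hf (n - j₀)
    have h2 : ∑ j ∈ range (m + d + 1), (Rp m d p j).eval (((n - j₀ : ℕ) : ℕ) : ℂ) *
        PowerSeries.coeff (n - j₀ + j) f = ∑ j ∈ Ico j₀ (j₁ + 1),
        (Rp m d p j).eval (((n - j₀ : ℕ) : ℕ) : ℂ) * PowerSeries.coeff (n - j₀ + j) f := by
      symm
      apply sum_subset
      · intro x hx
        rw [mem_Ico] at hx
        rw [mem_range]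
        omega
      · intro j hj hj'
        rw [mem_Ico] at hj'
        by_cases hz : Rp m d p j = 0
        · rw [hz, eval_zero, zero_mul]
        · exfalso
          apply hj'
          have hjS : j ∈ S := mem_filter.2 ⟨hj, hz⟩
          exact ⟨S.min'_le _ hjS, Nat.lt_succ_of_le (S.le_max' _ hjS)⟩
    rw [h2, sum_Ico_eq_sum_range] at h1
    rw [← h1, show j₁ + 1 - j₀ = j₁ - j₀ + 1 by omega]
    refine sum_congr rfl fun j _ => ?_
    have h3 : (P j).eval (n : ℂ) = (Rp m d p (j₀ + j)).eval (((n - j₀ : ℕ) : ℕ) : ℂ) := by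
      rw [hP]
      simp only
      rw [eval_comp, eval_sub, eval_X, eval_C, Nat.cast_sub hn, add_comm j j₀]
    rw [h3]
    simp only
    congr 3
    omega
  have hrR : (1 : ℝ) ≤ r := by exact_mod_cast hr1
  have hθ0 : (0 : ℝ) ≤ 1 - 1 / (2 * (r : ℝ) - 1) := by
    have h3 : (1 : ℝ) ≤ 2 * (r : ℝ) - 1 := by linarith
    have h4 : 1 / (2 * (r : ℝ) - 1) ≤ 1 := by
      rw [div_le_one (by linarith)]
      exact h3
    linarith
  have hncard : ∀ (q M N : ℕ) (f : PowerSeries ℂ),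
      {n : ℕ | M ≤ n ∧ n < M + N ∧ PowerSeries.coeff n f = 0 ∧
          ∃ k, PowerSeries.coeff (n + q * k) f ≠ 0}.ncard =
        ((Ico M (M + N)).filter fun n => (fun n => PowerSeries.coeff n f) n = 0 ∧
          ∃ k, (fun n => PowerSeries.coeff n f) (n + q * k) ≠ 0).card := by
    intro q M N f
    rw [← Set.ncard_coe_finset]
    congr 1
    ext n
    simp only [Set.mem_ofPred_eq, coe_filter, mem_Ico, and_assoc]
  rcases Nat.eq_zero_or_pos (j₁ - j₀) with hzero | hpos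
  · -- first case : one term
    obtain ⟨b, hb⟩ := exists_big hP0
    refine ⟨1, one_pos, (max j₀ b : ℕ), ?_⟩
    intro f hf
    refine ⟨finAP_tail (fun n => PowerSeries.coeff n f) one_pos, ?_⟩
    intro M N hN
    have hlarge : ∀ n, max j₀ b ≤ n → PowerSeries.coeff n f = 0 := by
      intro n hn
      have h1 := hrec f hf n ((le_max_left _ _).trans hn)
      rw [hzero, zero_add, sum_range_one] at h1
      simp only [add_zero] at h1
      exact (mul_eq_zero.1 h1).resolve_left (hb n ((le_max_right _ _).trans hn))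
    rw [hncard]
    have hsub : ((Ico M (M + N)).filter fun n => (fun n => PowerSeries.coeff n f) n = 0 ∧
          ∃ k, (fun n => PowerSeries.coeff n f) (n + 1 * k) ≠ 0) ⊆ range (max j₀ b) := by
      intro n hn
      obtain ⟨-, -, k, hk⟩ := mem_filter.1 hn
      rw [mem_range]
      by_contra hge
      exact hk (hlarge _ (by omega))
    have hcard := card_le_card hsub
    rw [card_range] at hcard
    have hN1 : (1 : ℝ) ≤ N := by exact_mod_cast hN
    have h5 := Real.one_le_rpow hN1 hθ0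
    have h6 : (0 : ℝ) ≤ ((max j₀ b : ℕ) : ℝ) := Nat.cast_nonneg _
    calc _ ≤ ((max j₀ b : ℕ) : ℝ) := by exact_mod_cast hcard
      _ ≤ _ := by nlinarith
  · obtain ⟨ρ, hρ⟩ : ∃ ρ, j₁ - j₀ = ρ + 1 := ⟨j₁ - j₀ - 1, by omega⟩
    rw [hρ] at hP1
    obtain ⟨q, hq, C, hC⟩ := rec_main (ρ := ρ) P hP0 hP1 j₀
    refine ⟨q, hq, max C 0, ?_⟩
    intro f hf
    refine ⟨finAP_tail (fun n => PowerSeries.coeff n f) hq, ?_⟩
    intro M N hN
    have h1 := hC (fun n => PowerSeries.coeff n f) (fun n hn => by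
      have := hrec f hf n hn
      rw [hρ] at this
      exact this) M N hN
    rw [hncard]
    have hN1 : (1 : ℝ) ≤ N := by exact_mod_cast hN
    have hρr : ((ρ : ℝ) + 1) ≤ r := by
      have : ρ + 1 ≤ r := by omega
      exact_mod_cast this
    have hρ0 : (0 : ℝ) ≤ ρ := Nat.cast_nonneg ρ
    have hexp : 1 - (2 * ((ρ : ℝ) + 1) - 1)⁻¹ ≤ 1 - 1 / (2 * (r : ℝ) - 1) := by
      have : 1 / (2 * (r : ℝ) - 1) ≤ (2 * ((ρ : ℝ) + 1) - 1)⁻¹ := by
        rw [one_div]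
        apply inv_anti₀ <;> linarith
      linarith
    have h2 := Real.rpow_le_rpow_of_exponent_le hN1 hexp
    have h3 : (0 : ℝ) ≤ (N : ℝ) ^ (1 - (2 * ((ρ : ℝ) + 1) - 1)⁻¹) :=
      Real.rpow_nonneg (by linarith) _
    calc _ ≤ C * (N : ℝ) ^ (1 - (2 * ((ρ : ℝ) + 1) - 1)⁻¹) := h1
      _ ≤ max C 0 * (N : ℝ) ^ (1 - (2 * ((ρ : ℝ) + 1) - 1)⁻¹) :=
          mul_le_mul_of_nonneg_right (le_max_left _ _) h3
      _ ≤ _ := mul_le_mul_of_nonneg_left h2 (le_max_right _ _)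

end Pool.Agent.Lib.MP_1eeaa7_nt.PS
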