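import Pool.Agent.Lib.MP_1eeaa7_nt.PS.Minor
import Pool.Agent.Lib.MP_1eeaa7_nt.PS.Full

/-!
# The power saving bound for recurrences
-/

set_option autoImplicit false

namespace Pool.Agent.Lib.MP_1eeaa7_nt.PS

open Finset Submodule Polynomial

variable {K : Type*} [Field K]

theorem exists_big [CharZero K] {p : K[X]} (hp : p ≠ 0) :
    ∃ n₁ : ℕ, ∀ n : ℕ, n₁ ≤ n → p.eval (n : K) ≠ 0 := by
  have hfin : {n : ℕ | p.eval (n : K) = 0}.Finite := by
    have h1 : {x : K | p.IsRoot x}.Finite := Polynomial.finite_setOfPred_isRoot hp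
    refine h1.preimage (f := fun n : ℕ => (n : K)) ?_
    exact Nat.cast_injective.injOn
  obtain ⟨b, hb⟩ := hfin.bddAbove
  refine ⟨b + 1, fun n hn h => ?_⟩
  have := hb (show n ∈ {n : ℕ | p.eval (n : K) = 0} from h)
  omega

theorem card_le_natDegree [CharZero K] {p : K[X]} (hp : p ≠ 0) {s : Finset ℕ} {g : ℕ → ℕ}
    (hg : Function.Injective g) (h : ∀ T ∈ s, p.eval ((g T : ℕ) : K) = 0) :
    s.card ≤ p.natDegree := by
  classical
  have h1 : s.card ≤ p.roots.toFinset.card := by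
    refine card_le_card_of_injOn (fun T => ((g T : ℕ) : K)) ?_ ?_
    · intro T hT
      rw [mem_coe, Multiset.mem_toFinset, mem_roots hp]
      exact h T hT
    · intro x _ y _ hxy
      exact hg (Nat.cast_injective hxy)
  exact h1.trans ((Multiset.toFinset_card_le _).trans (card_roots' p))

variable {ρ : ℕ} (P : ℕ → K[X])

open Classical in
/-- the bound in a residue class -/
theorem class_bound [CharZero K] {q : ℕ} (hq : 0 < q)
    (hTI : TI (FractionRing K[X]) (fun j => Vf ρ P (q * j)))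
    (hfull : Full (FractionRing K[X]) (fun j => Vf ρ P (q * j))) {m : ℕ} (hm0 : 0 < m)
    (hm : Module.finrank (FractionRing K[X])
      (span (FractionRing K[X]) (Set.range fun j => Vf ρ P (q * j))) = m)
    {d : ℕ} (hd : ∀ j ≤ ρ + 1, (P j).natDegree ≤ d)
    {a : ℕ → K} {n₁ : ℕ}
    (hrec : ∀ n, n₁ ≤ n → ∑ j ∈ range (ρ + 2), (P j).eval (n : K) * a (n + j) = 0)
    (hlead : ∀ n : ℕ, n₁ ≤ n → (P (ρ + 1)).eval (n : K) ≠ 0) (c : ℕ)
    {M N : ℕ} (hM : n₁ ≤ M) (hN : 1 ≤ N) :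
    (((Ico M (M + N)).filter fun T => a (c + q * T) = 0 ∧ ∃ k, a (c + q * T + q * k) ≠ 0).card : ℝ)
      ≤ (2 + 4 * m + 2 * ((m * (d * q) : ℕ) + 1)) * (N : ℝ) ^ (1 - (2 * (m : ℝ) - 1)⁻¹) := by
  refine count_main (Z := {T | a (c + q * T) = 0 ∧ ∃ k, a (c + q * T + q * k) ≠ 0})
    (T₀ := n₁) (C := m * (d * q)) hTI hfull hm hm0 ?_ hM hN
  intro D f hf hfD s hs
  obtain ⟨δ, hδ0, hδd, hδ⟩ := kill P hm hd hfD hf
  have h1 : s.card ≤ δ.natDegree := by
    refine card_le_natDegree hδ0 (g := fun T => c + q * T) ?_ ?_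
    · intro x y hxy
      have : q * x = q * y := by simpa using hxy
      exact Nat.eq_of_mul_eq_mul_left hq this
    · intro T hT
      by_contra hne
      obtain ⟨hT0, hT1⟩ := hs T hT
      have hn : n₁ ≤ c + q * T := by
        have : T ≤ q * T := Nat.le_mul_of_pos_left T hq
        omega
      have h2 := hδ hrec hlead (c + q * T) hn hne (fun i => by
        have := (hT1 i).1
        rw [mul_add, ← add_assoc] at this
        exact this)
      obtain ⟨k, hk⟩ := (hT1 ⟨0, hm0⟩).2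
      apply hk
      have h3 := h2 (f ⟨0, hm0⟩ + k)
      rw [← h3]
      congr 1
      ring
  refine h1.trans (hδd.trans (le_of_eq ?_))
  ring

open Classical in
theorem rec_main [CharZero K] (h0 : P 0 ≠ 0) (h1 : P (ρ + 1) ≠ 0) (n₀ : ℕ) :
    ∃ q : ℕ, 0 < q ∧ ∃ C : ℝ, ∀ a : ℕ → K,
      (∀ n, n₀ ≤ n → ∑ j ∈ range (ρ + 2), (P j).eval (n : K) * a (n + j) = 0) →
      ∀ M N : ℕ, 1 ≤ N →
        (((Ico M (M + N)).filter fun n => a n = 0 ∧ ∃ k, a (n + q * k) ≠ 0).card : ℝ) ≤
          C * (N : ℝ) ^ (1 - (2 * ((ρ : ℝ) + 1) - 1)⁻¹) := by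
  obtain ⟨b, hb⟩ := exists_big h1
  set n₁ := max n₀ b with hn₁
  have hlead : ∀ n : ℕ, n₁ ≤ n → (P (ρ + 1)).eval (n : K) ≠ 0 := fun n hn =>
    hb n ((le_max_right _ _).trans hn)
  obtain ⟨q, hq, hTI, hfull⟩ := exists_full (ti_Vf P h0 h1)
  set m := Module.finrank (FractionRing K[X])
      (span (FractionRing K[X]) (Set.range fun j => Vf ρ P (q * j))) with hm
  have hm0 : 0 < m := by
    rw [hm, Module.finrank_pos_iff_exists_ne_zero]
    refine ⟨⟨Vf ρ P (q * 0), subset_span ⟨0, rfl⟩⟩, ?_⟩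
    intro h
    have h2 := congrArg Subtype.val h
    exact Vf_zero_ne P h2
  have hmρ : m ≤ ρ + 1 := by
    have := Submodule.finrank_le
      (span (FractionRing K[X]) (Set.range fun j => Vf ρ P (q * j)))
    simpa using this
  set d := (range (ρ + 2)).sup fun j => (P j).natDegree with hd'
  have hd : ∀ j ≤ ρ + 1, (P j).natDegree ≤ d := fun j hj =>
    le_sup (f := fun j => (P j).natDegree) (mem_range.2 (by omega))
  set C' : ℝ := 2 + 4 * m + 2 * ((m * (d * q) : ℕ) + 1) with hC'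
  have hC'0 : 0 ≤ C' := by positivity
  set θ : ℝ := 1 - (2 * ((ρ : ℝ) + 1) - 1)⁻¹ with hθ
  have hmR : (1 : ℝ) ≤ m := by exact_mod_cast hm0
  have hmρR : (m : ℝ) ≤ (ρ : ℝ) + 1 := by exact_mod_cast hmρ
  have hθm : 1 - (2 * (m : ℝ) - 1)⁻¹ ≤ θ := by
    rw [hθ]
    have : (2 * ((ρ : ℝ) + 1) - 1)⁻¹ ≤ (2 * (m : ℝ) - 1)⁻¹ := by
      apply inv_anti₀ <;> linarith
    linarith
  have hθ0 : 0 ≤ θ := by
    have h3 : (1 : ℝ) ≤ 2 * ((ρ : ℝ) + 1) - 1 := by
      have : (0 : ℝ) ≤ ρ := Nat.cast_nonneg ρ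
      linarith
    have h4 : (2 * ((ρ : ℝ) + 1) - 1)⁻¹ ≤ 1 := inv_le_one_of_one_le₀ h3
    rw [hθ]
    linarith
  have hθ1 : θ ≤ 1 := by
    have h3 : (0 : ℝ) ≤ (2 * ((ρ : ℝ) + 1) - 1)⁻¹ := by
      apply inv_nonneg.2
      have : (0 : ℝ) ≤ ρ := Nat.cast_nonneg ρ
      linarith
    rw [hθ]
    linarith
  refine ⟨q, hq, q * (n₁ + 2 * C'), ?_⟩
  intro a hrec M N hN
  have hN1 : (1 : ℝ) ≤ N := by exact_mod_cast hN
  have hrec' : ∀ n, n₁ ≤ n → ∑ j ∈ range (ρ + 2), (P j).eval (n : K) * a (n + j) = 0 :=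
    fun n hn => hrec n ((le_max_left _ _).trans hn)
  set E := (Ico M (M + N)).filter fun n => a n = 0 ∧ ∃ k, a (n + q * k) ≠ 0 with hE
  have hmaps : (↑E : Set ℕ).MapsTo (fun n => n % q) ↑(range q) := fun n _ => by
    rw [mem_coe, mem_range]
    exact Nat.mod_lt n hq
  have hcard := card_eq_sum_card_fiberwise hmaps
  have hclass : ∀ c ∈ range q, ((E.filter fun n => n % q = c).card : ℝ) ≤
      (n₁ + 2 * C') * (N : ℝ) ^ θ := by
    intro c hc
    rw [mem_range] at hc
    set T₁ := (M - c) / q with hT₁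
    set T₂ := max T₁ n₁ with hT₂
    have hb1 := class_bound P hq hTI hfull hm0 hm.symm hd hrec' hlead c
      (M := T₂) (N := 2 * N) (le_max_right _ _) (by omega)
    set Z := (Ico T₂ (T₂ + 2 * N)).filter fun T =>
      a (c + q * T) = 0 ∧ ∃ k, a (c + q * T + q * k) ≠ 0 with hZ
    have hinj : (E.filter fun n => n % q = c).card ≤ (range n₁ ∪ Z).card := by
      refine card_le_card_of_injOn (fun n => n / q) ?_ ?_
      · intro n hn
        rw [mem_coe, mem_filter, hE, mem_filter, mem_Ico] at hn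
        obtain ⟨⟨⟨hn1, hn2⟩, hn3, hn4⟩, hn5⟩ := hn
        have hdiv : c + q * (n / q) = n := by
          rw [← hn5]
          exact Nat.mod_add_div n q
        rw [mem_coe, mem_union, mem_range, hZ, mem_filter, mem_Ico, hdiv]
        by_cases hlt : n / q < n₁
        · exact Or.inl hlt
        · refine Or.inr ⟨⟨?_, ?_⟩, hn3, hn4⟩
          · refine max_le ?_ (not_lt.1 hlt)
            rw [hT₁]
            apply Nat.div_le_div_right
            omega
          · have h6 : n / q < T₁ + 2 * N := by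
              rw [hT₁]
              have h7 : q * (n / q) < M + N - c := by omega
              have h8 : M - c < q * ((M - c) / q) + q := by
                have := Nat.lt_mul_div_succ (M - c) hq
                rw [mul_add, mul_one] at this
                exact this
              by_contra h9
              have h10 := Nat.mul_le_mul_left q (not_lt.1 h9)
              rw [mul_add] at h10
              have h11 : q * (2 * N) ≥ q + N := by nlinarith
              omega
            exact h6.trans_le (Nat.add_le_add_right (le_max_left _ _) _)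
      · intro x hx y hy hxy
        rw [mem_coe, mem_filter] at hx hy
        have h6 := Nat.mod_add_div x q
        have h7 := Nat.mod_add_div y q
        have h8 : x / q = y / q := hxy
        rw [hx.2, h8] at h6
        rw [hy.2] at h7
        omega
    have h12 : ((E.filter fun n => n % q = c).card : ℝ) ≤ n₁ + (Z.card : ℝ) := by
      have h13 := hinj.trans (card_union_le _ _)
      rw [card_range] at h13
      exact_mod_cast h13
    have h14 : (Z.card : ℝ) ≤ 2 * C' * (N : ℝ) ^ θ := by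
      refine hb1.trans ?_
      have h15 : ((2 * N : ℕ) : ℝ) ^ (1 - (2 * (m : ℝ) - 1)⁻¹) ≤ 2 * (N : ℝ) ^ θ := by
        have h16 : (1 : ℝ) ≤ ((2 * N : ℕ) : ℝ) := by exact_mod_cast (by omega : 1 ≤ 2 * N)
        refine (Real.rpow_le_rpow_of_exponent_le h16 hθm).trans ?_
        push_cast
        rw [Real.mul_rpow (by norm_num) (by linarith)]
        refine mul_le_mul_of_nonneg_right ?_ (Real.rpow_nonneg (by linarith) _)
        calc (2 : ℝ) ^ θ ≤ 2 ^ (1 : ℝ) := Real.rpow_le_rpow_of_exponent_le (by norm_num) hθ1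
          _ = 2 := Real.rpow_one 2
      calc C' * ((2 * N : ℕ) : ℝ) ^ (1 - (2 * (m : ℝ) - 1)⁻¹) ≤ C' * (2 * (N : ℝ) ^ θ) :=
            mul_le_mul_of_nonneg_left h15 hC'0
        _ = 2 * C' * (N : ℝ) ^ θ := by ring
    have h17 : (n₁ : ℝ) ≤ n₁ * (N : ℝ) ^ θ := by
      have := Real.one_le_rpow hN1 hθ0
      have h18 : (0 : ℝ) ≤ n₁ := Nat.cast_nonneg _
      nlinarith
    calc ((E.filter fun n => n % q = c).card : ℝ) ≤ n₁ + (Z.card : ℝ) := h12
      _ ≤ n₁ * (N : ℝ) ^ θ + 2 * C' * (N : ℝ) ^ θ := add_le_add h17 h14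
      _ = (n₁ + 2 * C') * (N : ℝ) ^ θ := by ring
  calc (E.card : ℝ) = ∑ c ∈ range q, ((E.filter fun n => n % q = c).card : ℝ) := by
        rw [hcard]
        push_cast
        rfl
    _ ≤ ∑ _c ∈ range q, (n₁ + 2 * C') * (N : ℝ) ^ θ := sum_le_sum hclass
    _ = q * (n₁ + 2 * C') * (N : ℝ) ^ θ := by
        rw [sum_const, card_range, nsmul_eq_mul]
        ring

end Pool.Agent.Lib.MP_1eeaa7_nt.PS
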