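import Mathlib

/-!
# Translation invariant families of vectors: few of them lie in a proper subspace
-/

set_option autoImplicit false

namespace Pool.Agent.Lib.MP_1eeaa7_nt.PS

open Finset Submodule

variable (F : Type*) {V : Type*} [Field F] [AddCommGroup V] [Module F V]

/-- translation invariance of linear independence -/
def TI (w : ℕ → V) : Prop := ∀ (k : ℕ) (f : Fin k → ℕ),
  LinearIndependent F (fun i => w (f i)) ↔ LinearIndependent F (fun i => w (f i + 1))

/-- every arithmetic progression spans -/
def Full (w : ℕ → V) : Prop := ∀ (U : Submodule F V) (s c : ℕ), 0 < s →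
  (∀ t, w (c + s * t) ∈ U) → ∀ j, w j ∈ U

variable {F} {w : ℕ → V}

theorem TI.shift (h : TI F w) (s : ℕ) : ∀ (k : ℕ) (f : Fin k → ℕ),
    LinearIndependent F (fun i => w (f i)) ↔ LinearIndependent F (fun i => w (f i + s)) := by
  induction s with
  | zero => intro k f; rfl
  | succ s ih =>
    intro k f
    rw [ih k f, h k fun i => f i + s]
    rfl

omit [AddCommGroup V] in
theorem snoc_comp {k : ℕ} (f : Fin k → ℕ) (e : ℕ) :
    (fun i => w ((Fin.snoc f e : Fin (k + 1) → ℕ) i)) =
      (Fin.snoc (fun i => w (f i)) (w e) : Fin (k + 1) → V) := by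
  have := Fin.comp_snoc (n := k) w f e
  exact this

theorem mem_span_iff {k : ℕ} {f : Fin k → ℕ} (hf : LinearIndependent F fun i => w (f i)) (e : ℕ) :
    w e ∈ span F (Set.range fun i => w (f i)) ↔
      ¬ LinearIndependent F fun i => w ((Fin.snoc f e : Fin (k + 1) → ℕ) i) := by
  rw [snoc_comp, linearIndependent_finSnoc]
  simp [hf]

theorem TI.mem (h : TI F w) {k : ℕ} {f : Fin k → ℕ}
    (hf : LinearIndependent F fun i => w (f i)) (e s : ℕ) :
    w e ∈ span F (Set.range fun i => w (f i)) ↔
      w (e + s) ∈ span F (Set.range fun i => w (f i + s)) := by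
  rw [mem_span_iff hf, mem_span_iff (f := fun i => f i + s) ((h.shift s k f).1 hf),
    h.shift s (k + 1) (Fin.snoc f e)]
  have h1 : (fun i => (Fin.snoc f e : Fin (k + 1) → ℕ) i + s) =
      (Fin.snoc (fun i => f i + s) (e + s) : Fin (k + 1) → ℕ) :=
    Fin.comp_snoc (n := k) (fun x : ℕ => x + s) f e
  rw [← h1]

open Classical in
/-- independent tuples in a finite set of indices -/
noncomputable def indep (F : Type*) {V : Type*} [Field F] [AddCommGroup V] [Module F V] (w : ℕ → V)
    (E : Finset ℕ) (k : ℕ) : Finset (Fin k → ℕ) :=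
  (Fintype.piFinset fun _ => E).filter fun f => LinearIndependent F fun i => w (f i)

theorem mem_indep {E : Finset ℕ} {k : ℕ} {f : Fin k → ℕ} :
    f ∈ indep F w E k ↔ (∀ i, f i ∈ E) ∧ LinearIndependent F fun i => w (f i) := by
  classical
  rw [indep, mem_filter, Fintype.mem_piFinset]

theorem card_indep_zero (E : Finset ℕ) : (indep F w E 0).card = 1 := by
  classical
  have : indep F w E 0 = univ := by
    ext f
    rw [mem_indep]
    exact ⟨fun _ => mem_univ _, fun _ => ⟨fun i => i.elim0, linearIndependent_empty_type⟩⟩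
  rw [this]
  simp

open Classical in
theorem card_indep_succ {E : Finset ℕ} {k G : ℕ}
    (hG : ∀ f ∈ indep F w E k,
      (E.filter fun e => w e ∈ span F (Set.range fun i => w (f i))).card ≤ G) :
    (indep F w E k).card * (E.card - G) ≤ (indep F w E (k + 1)).card := by
  have hmaps : (↑(indep F w E (k + 1)) : Set (Fin (k + 1) → ℕ)).MapsTo
      (fun f => (Fin.init f : Fin k → ℕ)) ↑(indep F w E k) := by
    intro f hf
    rw [mem_coe, mem_indep] at hf
    rw [mem_coe, mem_indep]
    exact ⟨fun i => hf.1 _, hf.2.comp _ (Fin.castSucc_injective k)⟩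
  rw [card_eq_sum_card_fiberwise hmaps, ← smul_eq_mul]
  refine card_nsmul_le_sum _ _ _ fun f hf => ?_
  have hf' := mem_indep.1 hf
  have h1 : (E.filter fun e => w e ∉ span F (Set.range fun i => w (f i))).card ≥ E.card - G := by
    have h2 := card_filter_add_card_filter_not (s := E)
      (fun e => w e ∈ span F (Set.range fun i => w (f i)))
    have h3 := hG f hf
    omega
  refine le_trans h1 ?_
  refine card_le_card_of_injOn (fun e => (Fin.snoc f e : Fin (k + 1) → ℕ)) ?_ ?_
  · intro e he
    rw [mem_coe, mem_filter] at he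
    rw [mem_coe, mem_filter, mem_indep]
    refine ⟨⟨fun i => ?_, ?_⟩, ?_⟩
    · refine Fin.lastCases ?_ (fun i => ?_) i
      · simpa using he.1
      · simpa using hf'.1 i
    · rw [snoc_comp, linearIndependent_finSnoc]
      exact ⟨hf'.2, he.2⟩
    · exact Fin.init_snoc _ _
  · intro e _ e' _ h
    have := congrFun h (Fin.last k)
    simpa using this

theorem card_indep_ge {E : Finset ℕ} {G : ℕ} (k : ℕ)
    (hG : ∀ i < k, ∀ f ∈ indep F w E i, ∀ E' ⊆ E,
      (∀ e ∈ E', w e ∈ span F (Set.range fun i => w (f i))) → E'.card ≤ G) :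
    (E.card - G) ^ k ≤ (indep F w E k).card := by
  classical
  induction k with
  | zero => rw [pow_zero, card_indep_zero]
  | succ k ih =>
    have h1 := ih fun i hi => hG i (by omega)
    rw [pow_succ]
    refine le_trans (Nat.mul_le_mul_right _ h1) (card_indep_succ fun f hf => ?_)
    exact hG k (by omega) f hf _ (filter_subset _ _) fun e he => (mem_filter.1 he).2

/-- Two translates of an independent tuple in a proper subspace contradict fullness. -/
theorem no_translate (hTI : TI F w) (hfull : Full F w) {k : ℕ} {f : Fin (k + 1) → ℕ}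
    (hf : LinearIndependent F fun i => w (f i)) {s : ℕ} (hs : 0 < s)
    (hmem : ∀ i, w (f i + s) ∈ span F (Set.range fun i => w (f i))) (hj : ∃ j,
      w j ∉ span F (Set.range fun i => w (f i))) : False := by
  set U := span F (Set.range fun i => w (f i)) with hU
  have hfr : Module.finrank F U = k + 1 := by
    rw [hU, finrank_span_eq_card hf, Fintype.card_fin]
  have hfd : FiniteDimensional F U := FiniteDimensional.of_finrank_pos (by rw [hfr]; omega)
  have key : ∀ t, ∀ i, w (f i + s * t) ∈ U := by
    intro t
    induction t with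
    | zero => intro i; rw [mul_zero, add_zero]; exact subset_span ⟨i, rfl⟩
    | succ t ih =>
      intro i
      have h1 : span F (Set.range fun i => w (f i + s * t)) = U := by
        refine eq_of_le_of_finrank_eq (span_le.2 ?_) ?_
        · rintro _ ⟨i, rfl⟩; exact ih i
        · rw [hfr, finrank_span_eq_card ((hTI.shift (s * t) _ f).1 hf), Fintype.card_fin]
      have h2 := (hTI.mem hf (f i + s) (s * t)).1 (hmem i)
      rw [h1] at h2
      rwa [show f i + s * (t + 1) = f i + s + s * t by ring]
  obtain ⟨j, hj⟩ := hj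
  exact hj (hfull U s (f 0) hs (fun t => key t 0) j)

/-- the recursive bound -/
noncomputable def G (D : ℕ) : ℕ → ℕ
  | 0 => 0
  | k + 1 => G D k + ⌈((2 * D : ℕ) : ℝ) ^ ((k : ℝ) / (k + 1))⌉₊

theorem G_mono (D : ℕ) : Monotone (G D) := monotone_nat_of_le_succ fun k => by
  rw [G]; exact Nat.le_add_right _ _

theorem card_le_G (hTI : TI F w) (hfull : Full F w) (D : ℕ) : ∀ (k : ℕ) (f : Fin k → ℕ),
    LinearIndependent F (fun i => w (f i)) → (∃ j, w j ∉ span F (Set.range fun i => w (f i))) →
    ∀ E ⊆ range D, (∀ e ∈ E, w e ∈ span F (Set.range fun i => w (f i))) → E.card ≤ G D k := by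
  intro k
  induction k using Nat.strong_induction_on with
  | _ k ih =>
  intro f hf hj E hED hE
  rcases Nat.eq_zero_or_pos k with rfl | hk
  · -- no vector vanishes
    have h0 : ∀ e, w e ≠ 0 := by
      obtain ⟨j, hj⟩ := hj
      have hjne : w j ≠ 0 := fun h => hj (by rw [h]; exact zero_mem _)
      have h1 : ∀ e, w e ≠ 0 ↔ w 0 ≠ 0 := by
        intro e
        have h2 := hTI.shift e 1 fun _ => 0
        rw [linearIndependent_unique_iff, linearIndependent_unique_iff] at h2
        rw [← zero_add e]
        simpa using h2.symm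
      intro e
      exact (h1 e).2 ((h1 j).1 hjne)
    have hempty : E = ∅ := by
      rw [eq_empty_iff_forall_notMem]
      intro e he
      have := hE e he
      rw [Set.range_eq_empty, span_empty, mem_bot] at this
      exact h0 e this
    rw [hempty, card_empty]
    exact Nat.zero_le _
  · obtain ⟨k, rfl⟩ : ∃ l, k = l + 1 := ⟨k - 1, by omega⟩
    set U := span F (Set.range fun i => w (f i)) with hU
    have hfr : Module.finrank F U = k + 1 := by
      rw [hU, finrank_span_eq_card hf, Fintype.card_fin]
    have hfd : FiniteDimensional F U := FiniteDimensional.of_finrank_pos (by rw [hfr]; omega)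
    have hsub : ∀ (i : ℕ) (g : Fin i → ℕ), (∀ l, g l ∈ E) →
        span F (Set.range fun l => w (g l)) ≤ U := by
      intro i g hg
      refine span_le.2 ?_
      rintro _ ⟨l, rfl⟩
      exact hE _ (hg l)
    have hlow : (E.card - G D k) ^ (k + 1) ≤ (indep F w E (k + 1)).card := by
      refine card_indep_ge _ fun i hi g hg E' hE' hmem => ?_
      rw [mem_indep] at hg
      obtain ⟨j, hj⟩ := hj
      refine (ih i hi g hg.2 ⟨j, fun h => hj (hsub i g hg.1 h)⟩ E' (hE'.trans hED) hmem).trans ?_
      exact G_mono D (by omega)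
    have hup : (indep F w E (k + 1)).card ≤ (2 * D) ^ k := by
      have h1 : (Fintype.piFinset fun _ : Fin k => Ioo (-(D : ℤ)) D).card ≤ (2 * D) ^ k := by
        rw [Fintype.card_piFinset, prod_const, card_univ, Fintype.card_fin, Int.card_Ioo]
        exact Nat.pow_le_pow_left (by omega) _
      refine le_trans (card_le_card_of_injOn
        (fun g => fun i : Fin k => (g i.succ : ℤ) - g 0) ?_ ?_) h1
      · intro g hg
        rw [mem_coe, mem_indep] at hg
        rw [mem_coe, Fintype.mem_piFinset]
        intro i
        have h2 := mem_range.1 (hED (hg.1 i.succ))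
        have h3 := mem_range.1 (hED (hg.1 0))
        rw [mem_Ioo]
        show -(D : ℤ) < (g i.succ : ℤ) - g 0 ∧ (g i.succ : ℤ) - g 0 < D
        constructor <;> omega
      · -- injectivity
        have main : ∀ g g' : Fin (k + 1) → ℕ, g ∈ indep F w E (k + 1) →
            g' ∈ indep F w E (k + 1) → (∀ i : Fin k, (g i.succ : ℤ) - g 0 = g' i.succ - g' 0) →
            g 0 < g' 0 → False := by
          intro g g' hg hg' hd hlt
          rw [mem_indep] at hg hg'
          have hgg : ∀ i, g' i = g i + (g' 0 - g 0) := by
            intro i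
            refine Fin.cases ?_ (fun i => ?_) i
            · omega
            · have := hd i
              omega
          have hspan : span F (Set.range fun l => w (g l)) = U := by
            refine eq_of_le_of_finrank_eq (hsub _ g hg.1) ?_
            rw [hfr, finrank_span_eq_card hg.2, Fintype.card_fin]
          refine no_translate hTI hfull hg.2 (s := g' 0 - g 0) (by omega) ?_ ?_
          · intro i
            rw [hspan, ← hgg i]
            exact hE _ (hg'.1 i)
          · rw [hspan]; exact hj
        intro g hg g' hg' h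
        have hd : ∀ i : Fin k, (g i.succ : ℤ) - g 0 = g' i.succ - g' 0 := fun i => congrFun h i
        rcases lt_trichotomy (g 0) (g' 0) with hlt | heq | hgt
        · exact (main g g' hg hg' hd hlt).elim
        · funext i
          refine Fin.cases heq (fun i => ?_) i
          have := hd i
          omega
        · exact (main g' g hg' hg (fun i => (hd i).symm) hgt).elim
    have h2 : ((E.card - G D k : ℕ) : ℝ) ≤ ((2 * D : ℕ) : ℝ) ^ ((k : ℝ) / (k + 1)) := by
      have h3 : ((E.card - G D k : ℕ) : ℝ) ^ (k + 1) ≤ ((2 * D : ℕ) : ℝ) ^ k := by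
        exact_mod_cast hlow.trans hup
      have h4 : (((2 * D : ℕ) : ℝ) ^ ((k : ℝ) / (k + 1))) ^ (k + 1) = ((2 * D : ℕ) : ℝ) ^ k := by
        rw [← Real.rpow_natCast, ← Real.rpow_mul (Nat.cast_nonneg _), ← Real.rpow_natCast]
        congr 1
        push_cast
        field_simp
      rw [← h4] at h3
      exact le_of_pow_le_pow_left₀ (by omega) (Real.rpow_nonneg (Nat.cast_nonneg _) _) h3
    have h5 : E.card - G D k ≤ ⌈((2 * D : ℕ) : ℝ) ^ ((k : ℝ) / (k + 1))⌉₊ := by
      have := h2.trans (Nat.le_ceil _)
      exact_mod_cast this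
    rw [G]
    omega

end Pool.Agent.Lib.MP_1eeaa7_nt.PS
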